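import Pool.Agent.Q255.IC.Stm

/-!
Project IC of helper255 (MP_2b9663_nt), job S_COV (helper151).
-/

set_option autoImplicit false

namespace Pool.Agent.Q151.IC

open Filter Topology MeasureTheory
open scoped ENNReal NNReal
open Pool.Agent.Q255.IC

section

attribute [local instance] PiNat.metricSpace

/-- the diameter of a set of sequences with the same first `n` terms -/
theorem ediam_cyl (n : ℕ) (x : Fin n → Bool) :
    Metric.ediam {ω : ℕ → Bool | ∀ k : Fin n, ω k = x k} ≤ ENNReal.ofReal ((1 / 2 : ℝ) ^ n) := by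
  refine Metric.ediam_le fun ω hω ω' hω' => ?_
  rw [edist_dist]
  refine ENNReal.ofReal_le_ofReal ?_
  rw [← PiNat.mem_cylinder_iff_dist_le]
  intro i hi
  have h1 := hω ⟨i, hi⟩
  have h2 := hω' ⟨i, hi⟩
  simp only at h1 h2
  rw [h1, h2]

theorem cov_aux (S : Set (ℕ → Bool)) (W : ∀ n : ℕ, Finset (Fin n → Bool)) (s C s' : ℝ) (hs : 0 ≤ s)
    (hss : s < s') (hW : ∀ n, ((W n).card : ℝ) ≤ C * 2 ^ (s * n))
    (hS : ∀ ω ∈ S, ∃ᶠ n : ℕ in atTop, (fun k : Fin n => ω k) ∈ W n) :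
    dimH S ≤ ENNReal.ofReal s' := by
  let _ : MeasurableSpace (ℕ → Bool) := borel _
  have : BorelSpace (ℕ → Bool) := ⟨rfl⟩
  have hs' : 0 ≤ s' := hs.trans hss.le
  have hC0 : 0 ≤ C := by
    have h1 := hW 0
    rw [Nat.cast_zero, mul_zero, Real.rpow_zero, mul_one] at h1
    exact (Nat.cast_nonneg _).trans h1
  obtain ⟨q, hq⟩ : ∃ q : ℝ, q = (2 : ℝ) ^ (-(s' - s)) := ⟨_, rfl⟩
  have hq0 : 0 < q := by
    rw [hq]
    exact Real.rpow_pos_of_pos two_pos _
  have hq1 : q < 1 := by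
    rw [hq]
    exact Real.rpow_lt_one_of_one_lt_of_neg one_lt_two (by linarith)
  have hmain : ∀ n₀ : ℕ, (∑' i : (Σ n : ℕ, {x // x ∈ W (n₀ + n)}),
      Metric.ediam {ω : ℕ → Bool | ∀ k : Fin (n₀ + i.1), ω k = i.2.1 k} ^ s') ≤
      ENNReal.ofReal (C * q ^ n₀ * (1 - q)⁻¹) := by
    intro n₀
    rw [ENNReal.tsum_sigma' (fun i : (Σ n : ℕ, {x // x ∈ W (n₀ + n)}) =>
      Metric.ediam {ω : ℕ → Bool | ∀ k : Fin (n₀ + i.1), ω k = i.2.1 k} ^ s')]
    have h1 : ∀ n : ℕ, (∑' x : {x // x ∈ W (n₀ + n)},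
        Metric.ediam {ω : ℕ → Bool | ∀ k : Fin (n₀ + n), ω k = x.1 k} ^ s') ≤
        ENNReal.ofReal (C * q ^ n₀ * q ^ n) := by
      intro n
      rw [tsum_fintype]
      have h2 : ∀ x ∈ (Finset.univ : Finset {x // x ∈ W (n₀ + n)}),
          Metric.ediam {ω : ℕ → Bool | ∀ k : Fin (n₀ + n), ω k = x.1 k} ^ s' ≤
          ENNReal.ofReal (((1 / 2 : ℝ) ^ (n₀ + n)) ^ s') := by
        intro x _
        rw [← ENNReal.ofReal_rpow_of_nonneg (by positivity) hs']
        exact ENNReal.rpow_le_rpow (ediam_cyl _ _) hs'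
      refine (Finset.sum_le_sum h2).trans ?_
      rw [Finset.sum_const, Finset.card_univ, Fintype.card_coe, nsmul_eq_mul,
        ← ENNReal.ofReal_natCast, ← ENNReal.ofReal_mul (Nat.cast_nonneg _)]
      refine ENNReal.ofReal_le_ofReal ?_
      calc ((W (n₀ + n)).card : ℝ) * ((1 / 2 : ℝ) ^ (n₀ + n)) ^ s' ≤
          (C * 2 ^ (s * ((n₀ + n : ℕ) : ℝ))) * ((1 / 2 : ℝ) ^ (n₀ + n)) ^ s' :=
            mul_le_mul_of_nonneg_right (hW _) (by positivity)
        _ = C * q ^ (n₀ + n) := by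
            have h3 : ((1 / 2 : ℝ) ^ (n₀ + n)) ^ s' = 2 ^ (-(s' * ((n₀ + n : ℕ) : ℝ))) := by
              rw [one_div, inv_pow, Real.inv_rpow (by positivity), ← Real.rpow_natCast,
                ← Real.rpow_mul two_pos.le, ← Real.rpow_neg two_pos.le]
              congr 1
              ring
            have h4 : q ^ (n₀ + n) = 2 ^ (-(s' - s) * ((n₀ + n : ℕ) : ℝ)) := by
              rw [hq, ← Real.rpow_natCast, ← Real.rpow_mul two_pos.le]
            rw [h3, h4, mul_assoc, ← Real.rpow_add two_pos]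
            congr 2
            ring
        _ = C * q ^ n₀ * q ^ n := by rw [pow_add]; ring
    refine (ENNReal.tsum_le_tsum h1).trans ?_
    have h5 : Summable fun n : ℕ => C * q ^ n₀ * q ^ n :=
      (summable_geometric_of_lt_one hq0.le hq1).mul_left _
    rw [← ENNReal.ofReal_tsum_of_nonneg (fun n => by positivity) h5, tsum_mul_left,
      tsum_geometric_of_lt_one hq0.le hq1]
  have hμ : Measure.hausdorffMeasure s' S = 0 := by
    have h1 := Measure.hausdorffMeasure_le_liminf_tsum (X := ℕ → Bool) (β := ℕ)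
      (ι := fun n₀ => (Σ n : ℕ, {x // x ∈ W (n₀ + n)})) s' S (l := atTop)
      (fun n₀ => ENNReal.ofReal ((1 / 2 : ℝ) ^ n₀)) (by
        rw [← ENNReal.ofReal_zero]
        refine ENNReal.tendsto_ofReal ?_
        exact tendsto_pow_atTop_nhds_zero_of_lt_one (by norm_num) (by norm_num))
      (fun n₀ i => {ω : ℕ → Bool | ∀ k : Fin (n₀ + i.1), ω k = i.2.1 k})
      (Filter.Eventually.of_forall fun n₀ i => by
        refine (ediam_cyl _ _).trans (ENNReal.ofReal_le_ofReal ?_)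
        exact pow_le_pow_of_le_one (by norm_num) (by norm_num) (Nat.le_add_right _ _))
      (Filter.Eventually.of_forall fun n₀ ω hω => by
        obtain ⟨n, hn, hnW⟩ := (Filter.frequently_atTop.1 (hS ω hω)) n₀
        obtain ⟨d, rfl⟩ := Nat.exists_eq_add_of_le hn
        rw [Set.mem_iUnion]
        exact ⟨⟨d, ⟨_, hnW⟩⟩, fun k => rfl⟩)
    have h2 : Tendsto (fun n₀ : ℕ => ENNReal.ofReal (C * q ^ n₀ * (1 - q)⁻¹)) atTop (𝓝 0) := by
      rw [← ENNReal.ofReal_zero]
      refine ENNReal.tendsto_ofReal ?_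
      have h3 := (tendsto_pow_atTop_nhds_zero_of_lt_one hq0.le hq1).const_mul C
      have h4 := h3.mul_const (1 - q)⁻¹
      rwa [mul_zero, zero_mul] at h4
    have h3 : Filter.liminf (fun n₀ => ∑' i : (Σ n : ℕ, {x // x ∈ W (n₀ + n)}),
        Metric.ediam {ω : ℕ → Bool | ∀ k : Fin (n₀ + i.1), ω k = i.2.1 k} ^ s') atTop ≤ 0 := by
      rw [← h2.liminf_eq]
      exact Filter.liminf_le_liminf (Filter.Eventually.of_forall hmain)
    exact nonpos_iff_eq_zero.1 (h1.trans h3)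
  have h5 := dimH_le_of_hausdorffMeasure_ne_top (X := ℕ → Bool) (s := S) (d := s'.toNNReal) (by
    rw [Real.coe_toNNReal _ hs', hμ]
    exact ENNReal.zero_ne_top)
  exact h5

end

theorem cov : S_COV := by
  intro S W s C hs hW hS
  unfold dimS
  have h : ∀ s' : ℝ, s < s' → @dimH _ (@MetricSpace.toEMetricSpace _
      (PiNat.metricSpace (E := fun _ => Bool))) S ≤ ENNReal.ofReal s' := fun s' hs' =>
    cov_aux S W s C s' hs hs' hW hS
  refine ENNReal.le_of_forall_pos_le_add fun ε hε _ => ?_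
  have h1 := h (s + ε) (by
    have : (0 : ℝ) < ε := hε
    linarith)
  rw [ENNReal.ofReal_add hs ε.coe_nonneg] at h1
  refine h1.trans (le_of_eq ?_)
  congr 1
  exact ENNReal.ofReal_coe_nnreal

end Pool.Agent.Q151.IC
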