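import Pool.Agent.Q255.IC.Stm

/-!
Project IC of helper255 (MP_2b9663_nt), job S_ORD (helper151).
-/

set_option autoImplicit false

namespace Pool.Agent.Q151.IC

open Filter Topology
open Pool.Agent.Q255.IC

theorem ord : S_ORD := by
  intro F G m hG hF
  -- the function `(s - 1) ζ(s)` with value `1` at `1`
  obtain ⟨ψ, hψ⟩ : ∃ ψ : ℂ → ℂ, ψ = Function.update (fun s => (s - 1) * riemannZeta s) 1 1 := ⟨_, rfl⟩
  have hψ1 : ψ 1 = 1 := by
    rw [hψ, Function.update_self]
  have hψne : ∀ s, s ≠ 1 → ψ s = (s - 1) * riemannZeta s := by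
    intro s hs
    rw [hψ, Function.update_of_ne hs]
  have hcont : ContinuousAt ψ 1 := by
    rw [hψ, continuousAt_update_same]
    exact riemannZeta_residue_one
  have hψan : AnalyticAt ℂ ψ 1 := by
    refine Complex.analyticAt_of_differentiable_on_punctured_nhds_of_continuousAt ?_ hcont
    filter_upwards [self_mem_nhdsWithin] with s hs
    have hs1 : s ≠ 1 := hs
    have h1 : ψ =ᶠ[𝓝 s] fun s => (s - 1) * riemannZeta s := by
      filter_upwards [isOpen_ne.mem_nhds hs1] with z hz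
      exact hψne z hz
    rw [h1.differentiableAt_iff]
    exact (differentiableAt_id.sub_const 1).mul (differentiableAt_riemannZeta hs1)
  have hGan : AnalyticAt ℂ G 1 := hG 1 (by
    show 1 / 2 < (1 : ℂ).re
    rw [Complex.one_re]
    norm_num)
  obtain ⟨g, hg⟩ : ∃ g : ℂ → ℂ, g = fun s => Complex.exp (G s) / ψ s ^ m := ⟨_, rfl⟩
  have hgan : AnalyticAt ℂ g 1 := by
    rw [hg]
    refine AnalyticAt.div hGan.cexp (hψan.pow m) ?_
    rw [hψ1, one_pow]
    exact one_ne_zero
  have hg1 : g 1 ≠ 0 := by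
    rw [hg]
    show Complex.exp (G 1) / ψ 1 ^ m ≠ 0
    rw [hψ1, one_pow, div_one]
    exact Complex.exp_ne_zero _
  obtain ⟨Λ, hΛ⟩ : ∃ Λ : ℂ → ℂ, Λ = fun s => (s - 1) ^ m * g s := ⟨_, rfl⟩
  have hΛan : AnalyticAt ℂ Λ 1 := by
    rw [hΛ]
    exact ((analyticAt_id.sub analyticAt_const).pow m).mul hgan
  refine ⟨Λ, ?_, ?_, ?_⟩
  · rw [Complex.ofReal_one]
    exact hΛan.meromorphicAt
  · refine Filter.Eventually.of_forall fun s hs => ?_
    have hs1 : s ≠ 1 := by
      intro h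
      rw [h, Complex.one_re] at hs
      exact lt_irrefl _ hs
    have hz := riemannZeta_ne_zero_of_one_lt_re hs
    have h1 := hF s hs
    have h2 : s - 1 ≠ 0 := sub_ne_zero.2 hs1
    rw [hΛ, hg]
    show (s - 1) ^ m * (Complex.exp (G s) / ψ s ^ m) = F s
    rw [hψne s hs1, ← h1, mul_pow]
    have h3 := pow_ne_zero m h2
    have h4 := pow_ne_zero m hz
    field_simp
  · rw [Complex.ofReal_one]
    rw [show (((m : ℕ) : ℤ) : WithTop ℤ) = ((m : ℤ) : WithTop ℤ) from rfl]
    rw [meromorphicOrderAt_eq_int_iff hΛan.meromorphicAt]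
    refine ⟨g, hgan, hg1, Filter.Eventually.of_forall fun s => ?_⟩
    rw [hΛ, zpow_natCast, smul_eq_mul]

end Pool.Agent.Q151.IC
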