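import Pool.Agent.Q255.IC.Stm

/-!
Project IC of helper255 (MP_2b9663_nt), jobs S_ZP, S_FIN, S_RZ (helper151).
-/

set_option autoImplicit false

namespace Pool.Agent.Q151.IC

open Filter Topology
open Pool.Agent.Q255.IC

/-- constants are absorbed by `ε log (1/h)` -/
theorem const_le_log (C ε : ℝ) (hε : 0 < ε) : ∀ᶠ h : ℝ in 𝓝[>] 0, C ≤ -(ε * Real.log h) := by
  have h1 : Tendsto (fun h : ℝ => -(ε * Real.log h)) (𝓝[>] 0) atTop := by
    have h2 : Tendsto (fun h : ℝ => ε * (-Real.log h)) (𝓝[>] 0) atTop := by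
      refine Tendsto.const_mul_atTop hε ?_
      exact tendsto_neg_atBot_atTop.comp Real.tendsto_log_nhdsGT_zero
    refine h2.congr fun h => by ring
  exact h1.eventually_ge_atTop C

theorem ev_small : ∀ᶠ h : ℝ in 𝓝[>] 0, 0 < h ∧ h < 1 := by
  have : Set.Ioo (0 : ℝ) 1 ∈ 𝓝[>] (0 : ℝ) := Ioo_mem_nhdsGT one_pos
  filter_upwards [this] with h hh
  exact hh

theorem zp : S_ZP := by
  rintro F s₀ k m ⟨Λ, hmer, hΛF, hord⟩
  obtain ⟨g, hg, hg0, hgk⟩ := (meromorphicOrderAt_eq_int_iff hmer).1 hord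
  -- on the real axis
  have htend : Tendsto (fun h : ℝ => ((s₀ + h : ℝ) : ℂ)) (𝓝[>] 0) (𝓝[≠] (s₀ : ℂ)) := by
    rw [tendsto_nhdsWithin_iff]
    constructor
    · have h1 : Tendsto (fun h : ℝ => ((s₀ + h : ℝ) : ℂ)) (𝓝 0) (𝓝 ((s₀ + 0 : ℝ) : ℂ)) := by
        refine (Complex.continuous_ofReal.comp (continuous_const.add continuous_id)).tendsto 0
      rw [add_zero] at h1
      exact h1.mono_left nhdsWithin_le_nhds
    · filter_upwards [ev_small] with h hh
      rw [Set.mem_compl_singleton_iff, Ne, Complex.ofReal_inj]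
      have := hh.1
      intro h2
      linarith
  have htend' : Tendsto (fun h : ℝ => ((s₀ + h : ℝ) : ℂ)) (𝓝[>] 0) (𝓝 (s₀ : ℂ)) :=
    htend.mono_right nhdsWithin_le_nhds
  have hc0 : 0 < ‖g (s₀ : ℂ)‖ := norm_pos_iff.2 hg0
  have hgn : Tendsto (fun h : ℝ => ‖g ((s₀ + h : ℝ) : ℂ)‖) (𝓝[>] 0) (𝓝 ‖g (s₀ : ℂ)‖) :=
    (hg.continuousAt.norm.tendsto).comp htend'
  have hev : ∀ᶠ h : ℝ in 𝓝[>] 0, Real.log ‖F ((s₀ + h : ℝ) : ℂ)‖ =
      k * Real.log h + Real.log ‖g ((s₀ + h : ℝ) : ℂ)‖ ∧ 0 < ‖F ((s₀ + h : ℝ) : ℂ)‖ ∧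
      Real.log (‖g (s₀ : ℂ)‖ / 2) ≤ Real.log ‖g ((s₀ + h : ℝ) : ℂ)‖ ∧
      Real.log ‖g ((s₀ + h : ℝ) : ℂ)‖ ≤ Real.log (2 * ‖g (s₀ : ℂ)‖) := by
    filter_upwards [ev_small, htend.eventually hgk, htend'.eventually hΛF,
      hgn.eventually (Ioo_mem_nhds (a := ‖g (s₀ : ℂ)‖ / 2) (b := 2 * ‖g (s₀ : ℂ)‖)
        (by linarith) (by linarith))] with h hh h1 h2 h3
    have h4 : s₀ < (((s₀ + h : ℝ) : ℂ)).re := by
      rw [Complex.ofReal_re]
      linarith [hh.1]
    have h5 := h2 h4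
    rw [h1] at h5
    have h6 : ((s₀ + h : ℝ) : ℂ) - (s₀ : ℂ) = (h : ℂ) := by
      push_cast
      ring
    rw [h6, smul_eq_mul] at h5
    have h7 : 0 < ‖g ((s₀ + h : ℝ) : ℂ)‖ := lt_trans (by linarith) h3.1
    have h8 : ‖F ((s₀ + h : ℝ) : ℂ)‖ = h ^ k * ‖g ((s₀ + h : ℝ) : ℂ)‖ := by
      rw [← h5, norm_mul, norm_zpow, Complex.norm_real, Real.norm_of_nonneg hh.1.le]
    refine ⟨?_, ?_, ?_, ?_⟩
    · rw [h8, Real.log_mul (zpow_pos hh.1 k).ne' h7.ne', Real.log_zpow]
    · rw [h8]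
      exact mul_pos (zpow_pos hh.1 k) h7
    · exact Real.log_le_log (by linarith) h3.1.le
    · exact Real.log_le_log h7 h3.2.le
  constructor
  · intro hmk ε hε
    filter_upwards [ev_small, hev, const_le_log (Real.log (2 * ‖g (s₀ : ℂ)‖)) ε hε] with h hh h1 h2
    obtain ⟨h3, h4, h5, h6⟩ := h1
    rw [← Real.log_le_log_iff h4 (Real.rpow_pos_of_pos hh.1 _), Real.log_rpow hh.1, h3]
    have hl : Real.log h < 0 := Real.log_neg hh.1 hh.2
    have h7 : (k : ℝ) * Real.log h ≤ m * Real.log h := mul_le_mul_of_nonpos_right hmk hl.le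
    have h8 : (m - ε) * Real.log h = m * Real.log h - ε * Real.log h := by ring
    rw [h8]
    linarith
  · intro hmk ε hε
    filter_upwards [ev_small, hev, const_le_log (-Real.log (‖g (s₀ : ℂ)‖ / 2)) ε hε] with h hh h1 h2
    obtain ⟨h3, h4, h5, h6⟩ := h1
    rw [← Real.log_le_log_iff (Real.rpow_pos_of_pos hh.1 _) h4, Real.log_rpow hh.1, h3]
    have hl : Real.log h < 0 := Real.log_neg hh.1 hh.2
    have h7 : -m * Real.log h ≤ (k : ℝ) * Real.log h := mul_le_mul_of_nonpos_right hmk hl.le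
    have h8 : -(m - ε) * Real.log h = -m * Real.log h + ε * Real.log h := by ring
    rw [h8]
    linarith

theorem pr_ge (k : ℕ) : (k : ℝ) + 2 ≤ pr k := by
  unfold pr
  exact_mod_cast Nat.add_two_le_nth_prime k

theorem pr_pos (k : ℕ) : (0 : ℝ) < pr k := by
  have := pr_ge k
  have h : (0 : ℝ) ≤ k := Nat.cast_nonneg k
  linarith

theorem summable_pr {h : ℝ} (hh : 0 < h) : Summable fun k : ℕ => (pr k : ℝ) ^ (-1 - h) := by
  have h1 : Summable fun n : ℕ => ((n : ℝ)) ^ (-1 - h) := Real.summable_nat_rpow.2 (by linarith)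
  have h2 : Summable fun n : ℕ => (((n + 1 : ℕ) : ℝ)) ^ (-1 - h) := (summable_nat_add_iff 1).2 h1
  refine Summable.of_nonneg_of_le (fun k => Real.rpow_nonneg (pr_pos k).le _) (fun k => ?_) h2
  refine Real.rpow_le_rpow_of_nonpos (by positivity) ?_ (by linarith)
  have := pr_ge k
  push_cast
  linarith

theorem abs_sg (ω : ℕ → Bool) (k : ℕ) : |sg ω k| = 1 := by
  unfold sg
  split_ifs
  · exact abs_one
  · rw [abs_neg, abs_one]

theorem summable_DS {a : ℕ → ℝ} {B : ℝ} (ha : ∀ k, |a k| ≤ B) (ω : ℕ → Bool) {h : ℝ} (hh : 0 < h) :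
    Summable fun k : ℕ => sg ω k * a k * (pr k : ℝ) ^ (-1 - h) := by
  refine Summable.of_norm_bounded ((summable_pr hh).mul_left B) fun k => ?_
  rw [Real.norm_eq_abs, abs_mul, abs_mul, abs_sg, one_mul,
    abs_of_nonneg (Real.rpow_nonneg (pr_pos k).le _)]
  exact mul_le_mul_of_nonneg_right (ha k) (Real.rpow_nonneg (pr_pos k).le _)

theorem fin : S_FIN := by
  intro B a a' ω m ha ha' hev hRZ ε hε
  obtain ⟨K, hK⟩ := Filter.eventually_atTop.1 hev
  filter_upwards [ev_small, hRZ (ε / 2) (by linarith),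
    const_le_log (∑ k ∈ Finset.range K, |a' k - a k|) (ε / 2) (by linarith)] with h hh h1 h2
  have h3 : DS a' ω h - DS a ω h = ∑ k ∈ Finset.range K, sg ω k * (a' k - a k) *
      (pr k : ℝ) ^ (-1 - h) := by
    unfold DS
    rw [← (summable_DS ha' ω hh.1).tsum_sub (summable_DS ha ω hh.1)]
    rw [tsum_eq_sum (s := Finset.range K)]
    · refine Finset.sum_congr rfl fun k _ => by ring
    · intro k hk
      rw [Finset.mem_range, not_lt] at hk
      rw [hK k hk]
      ring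
  have h4 : ∑ k ∈ Finset.range K, sg ω k * (a' k - a k) * (pr k : ℝ) ^ (-1 - h) ≤
      ∑ k ∈ Finset.range K, |a' k - a k| := by
    refine Finset.sum_le_sum fun k _ => ?_
    refine (le_abs_self _).trans ?_
    rw [abs_mul, abs_mul, abs_sg, one_mul, abs_of_nonneg (Real.rpow_nonneg (pr_pos k).le _)]
    refine mul_le_of_le_one_right (abs_nonneg _) ?_
    refine Real.rpow_le_one_of_one_le_of_nonpos ?_ (by linarith [hh.1])
    have := pr_ge k
    have h0 : (0 : ℝ) ≤ k := Nat.cast_nonneg k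
    linarith
  have h5 : (m - ε) * Real.log h = (m - ε / 2) * Real.log h - ε / 2 * Real.log h := by ring
  rw [h5]
  linarith

theorem DS_neg (a : ℕ → ℝ) (ω : ℕ → Bool) (h : ℝ) : DS (fun k => -a k) ω h = -DS a ω h := by
  unfold DS
  rw [← tsum_neg]
  refine tsum_congr fun k => by ring

theorem rz (hLOG : S_LOG) : S_RZ := by
  intro N w α ω m hS
  obtain ⟨C, hC⟩ := hLOG N
  have hev : ∀ᶠ h : ℝ in 𝓝[>] 0, 0 < ‖LF α ω ((w / 2 + 1 + h : ℝ) : ℂ)‖ ∧
      |Real.log ‖LF α ω ((w / 2 + 1 + h : ℝ) : ℂ)‖ - DS (av w α) ω h| ≤ C := by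
    filter_upwards [ev_small] with h hh
    obtain ⟨-, h1, h2⟩ := hC w α ω h hS hh.1 hh.2.le
    exact ⟨norm_pos_iff.2 h1, h2⟩
  constructor
  · constructor
    · intro hz ε hε
      filter_upwards [ev_small, hev, hz (ε / 2) (by linarith), const_le_log C (ε / 2) (by linarith)]
        with h hh h1 h2 h3
      rw [← Real.log_le_log_iff h1.1 (Real.rpow_pos_of_pos hh.1 _), Real.log_rpow hh.1] at h2
      have h4 := (abs_le.1 h1.2).1
      have h5 : (m - ε) * Real.log h = (m - ε / 2) * Real.log h - ε / 2 * Real.log h := by ring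
      rw [h5]
      linarith
    · intro hz ε hε
      filter_upwards [ev_small, hev, hz (ε / 2) (by linarith), const_le_log C (ε / 2) (by linarith)]
        with h hh h1 h2 h3
      rw [← Real.log_le_log_iff h1.1 (Real.rpow_pos_of_pos hh.1 _), Real.log_rpow hh.1]
      have h4 := (abs_le.1 h1.2).2
      have h5 : (m - ε) * Real.log h = (m - ε / 2) * Real.log h - ε / 2 * Real.log h := by ring
      rw [h5]
      linarith
  · constructor
    · intro hz ε hε
      filter_upwards [ev_small, hev, hz (ε / 2) (by linarith), const_le_log C (ε / 2) (by linarith)]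
        with h hh h1 h2 h3
      rw [← Real.log_le_log_iff (Real.rpow_pos_of_pos hh.1 _) h1.1, Real.log_rpow hh.1] at h2
      rw [DS_neg]
      have h4 := (abs_le.1 h1.2).2
      have h5 : (m - ε) * Real.log h = (m - ε / 2) * Real.log h - ε / 2 * Real.log h := by ring
      have h6 : -(m - ε / 2) * Real.log h = -((m - ε / 2) * Real.log h) := by ring
      rw [h6] at h2
      rw [h5]
      linarith
    · intro hz ε hε
      filter_upwards [ev_small, hev, hz (ε / 2) (by linarith), const_le_log C (ε / 2) (by linarith)]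
        with h hh h1 h2 h3
      rw [← Real.log_le_log_iff (Real.rpow_pos_of_pos hh.1 _) h1.1, Real.log_rpow hh.1]
      rw [DS_neg] at h2
      have h4 := (abs_le.1 h1.2).1
      have h5 : -(m - ε) * Real.log h = -((m - ε / 2) * Real.log h) + ε / 2 * Real.log h := by ring
      rw [h5]
      linarith

end Pool.Agent.Q151.IC
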