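import Pool.Agent.Q151.IC.Rz

/-!
Project IC of helper255 (MP_2b9663_nt), job S_T2 (helper151).
-/

set_option autoImplicit false

namespace Pool.Agent.Q151.IC

open Filter Topology MeasureTheory
open scoped ENNReal NNReal
open Pool.Agent.Q255.IC

/-- For infinitely many `n` the partial sum is large. -/
theorem freq (hABEL : S_ABEL) (hPZ : S_PZ) (a : ℕ → ℝ) (B m δ : ℝ) (ha : ∀ k, |a k| ≤ B)
    (hδ : 0 < δ) (ω : ℕ → Bool) (hRZ : RZ a ω m) :
    ∃ᶠ n : ℕ in atTop, (m - δ) * n ≤ -∑ k ∈ Finset.range n, sg ω k * a k := by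
  by_contra hcon
  rw [Filter.not_frequently] at hcon
  obtain ⟨n₀, hn₀⟩ := Filter.eventually_atTop.1 hcon
  obtain ⟨C', hC'⟩ := hPZ
  have hB0 : 0 ≤ B := (abs_nonneg _).trans (ha 0)
  obtain ⟨b, hb⟩ : ∃ b : ℕ → ℝ, b = fun k => -(sg ω k * a k) := ⟨_, rfl⟩
  have hbB : ∀ k, |b k| ≤ B := by
    intro k
    rw [hb]
    show |-(sg ω k * a k)| ≤ B
    rw [abs_neg, abs_mul, abs_sg, one_mul]
    exact ha k
  obtain ⟨C, hC⟩ : ∃ C : ℝ, C = (B + |m - δ|) * n₀ := ⟨_, rfl⟩
  have hC0 : 0 ≤ C := by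
    rw [hC]
    positivity
  have hpart : ∀ n, ∑ k ∈ Finset.range n, b k ≤ (m - δ) * n + C := by
    intro n
    rcases le_total n₀ n with h | h
    · have h1 := not_le.1 (hn₀ n h)
      rw [← Finset.sum_neg_distrib] at h1
      rw [hb]
      linarith
    · have h1 : ∑ k ∈ Finset.range n, b k ≤ ∑ k ∈ Finset.range n, B :=
        Finset.sum_le_sum fun k _ => (le_abs_self _).trans (hbB k)
      rw [Finset.sum_const, Finset.card_range, nsmul_eq_mul] at h1
      have h2 : (n : ℝ) ≤ n₀ := by exact_mod_cast h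
      have h3 : -(|m - δ| * n) ≤ (m - δ) * n := by
        have := neg_abs_le (m - δ)
        have h0 : (0 : ℝ) ≤ n := Nat.cast_nonneg n
        nlinarith
      have h4 : (n : ℝ) * B + |m - δ| * n ≤ C := by
        rw [hC]
        have h5 : 0 ≤ B + |m - δ| := by positivity
        nlinarith
      linarith
  have hev : ∀ᶠ h : ℝ in 𝓝[>] 0, False := by
    filter_upwards [ev_small, hRZ (δ / 2) (by linarith),
      const_le_log (|m - δ| * C' + C + 1) (δ / 2) (by linarith)] with h hh h1 h2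
    obtain ⟨hsum, habs⟩ := hC' h hh.1 hh.2.le
    have hanti : Antitone fun k : ℕ => (pr k : ℝ) ^ (-1 - h) := by
      intro i j hij
      refine Real.rpow_le_rpow_of_nonpos (pr_pos i) ?_ (by linarith [hh.1])
      have : pr i ≤ pr j := Nat.nth_monotone Nat.infinite_setOfPred_prime hij
      exact_mod_cast this
    have hA := hABEL b (fun k : ℕ => (pr k : ℝ) ^ (-1 - h)) B (m - δ) C hbB hC0 hanti
      (fun k => Real.rpow_nonneg (pr_pos k).le _) hsum hpart
    have hD : ∑' k, b k * (pr k : ℝ) ^ (-1 - h) = -DS a ω h := by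
      unfold DS
      rw [← tsum_neg]
      refine tsum_congr fun k => ?_
      rw [hb]
      ring
    rw [hD] at hA
    have hw0 : (pr 0 : ℝ) ^ (-1 - h) ≤ 1 := by
      refine Real.rpow_le_one_of_one_le_of_nonpos ?_ (by linarith [hh.1])
      have h0 := pr_ge 0
      rw [Nat.cast_zero, zero_add] at h0
      linarith
    have h3 : C * (pr 0 : ℝ) ^ (-1 - h) ≤ C := mul_le_of_le_one_right hC0 hw0
    have h4 : (m - δ) * ∑' k : ℕ, (pr k : ℝ) ^ (-1 - h) ≤ (m - δ) * (-Real.log h) + |m - δ| * C' := by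
      have h5 : (m - δ) * ((∑' k : ℕ, (pr k : ℝ) ^ (-1 - h)) + Real.log h) ≤ |m - δ| * C' := by
        refine (le_abs_self _).trans ?_
        rw [abs_mul]
        exact mul_le_mul_of_nonneg_left habs (abs_nonneg _)
      linarith
    have h6 : (m - δ / 2) * Real.log h = (m - δ) * Real.log h + δ / 2 * Real.log h := by ring
    rw [h6] at h1
    linarith
  obtain ⟨h, hh⟩ := hev.exists
  exact hh

theorem dim_one (hCOV : S_COV) (hCHER : S_CHER) (hABEL : S_ABEL) (hPZ : S_PZ) (hSUP : S_SUP)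
    (a : ℕ → ℝ) (B m : ℝ) (ha : ∀ k, |a k| ≤ B) (hm : 0 < m) (hmB : m ≤ B) :
    dimS {ω | RZ a ω m} ≤ ENNReal.ofReal (Real.binEntropy ((1 + m / B) / 2) / Real.log 2) := by
  have hB : 0 < B := hm.trans_le hmB
  have hu0 : 0 < m / B := div_pos hm hB
  have hu1 : m / B ≤ 1 := (div_le_one hB).2 hmB
  have hl2 : 0 < Real.log 2 := Real.log_pos one_lt_two
  have hE0 : 0 ≤ Real.binEntropy ((1 + m / B) / 2) :=
    Real.binEntropy_nonneg (by linarith) (by linarith)
  have key : ∀ ε : ℝ, 0 < ε → dimS {ω | RZ a ω m} ≤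
      ENNReal.ofReal ((Real.binEntropy ((1 + m / B) / 2) + 2 * ε) / Real.log 2) := by
    intro ε hε
    obtain ⟨-, -, τ, hτ, hτ2⟩ := hSUP (m / B) ε hu0 hu1 hε
    obtain ⟨t, ht⟩ : ∃ t : ℝ, t = τ / B := ⟨_, rfl⟩
    have ht0 : 0 < t := by
      rw [ht]
      exact div_pos hτ hB
    have htB : t * B = τ := by
      rw [ht]
      field_simp
    have htm : t * m = τ * (m / B) := by
      rw [ht]
      field_simp
    obtain ⟨δ, hδ⟩ : ∃ δ : ℝ, δ = ε / t := ⟨_, rfl⟩
    have hδ0 : 0 < δ := by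
      rw [hδ]
      exact div_pos hε ht0
    have htδ : t * δ = ε := by
      rw [hδ]
      field_simp
    have hs : Real.log 2 + Real.log (Real.cosh (t * B)) - t * (m - δ) ≤
        Real.binEntropy ((1 + m / B) / 2) + 2 * ε := by
      have h1 : t * (m - δ) = τ * (m / B) - ε := by
        rw [mul_sub, htm, htδ]
      rw [h1, htB]
      unfold cost at hτ2
      linarith
    refine hCOV {ω | RZ a ω m} (fun n => Finset.univ.filter fun s : Fin n → Bool =>
      (m - δ) * n ≤ -∑ k : Fin n, (if s k then (1 : ℝ) else -1) * a k)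
      ((Real.binEntropy ((1 + m / B) / 2) + 2 * ε) / Real.log 2) 1 (by positivity) ?_ ?_
    · intro n
      refine (hCHER a B (m - δ) t n ha ht0.le).trans ?_
      rw [one_mul, Real.rpow_def_of_pos two_pos]
      refine Real.exp_le_exp.2 ?_
      have h2 : Real.log 2 * ((Real.binEntropy ((1 + m / B) / 2) + 2 * ε) / Real.log 2 * n) =
          n * (Real.binEntropy ((1 + m / B) / 2) + 2 * ε) := by
        field_simp
      rw [h2]
      exact mul_le_mul_of_nonneg_left hs (Nat.cast_nonneg n)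
    · intro ω hω
      refine (freq hABEL hPZ a B m δ ha hδ0 ω hω).mono fun n hn => ?_
      rw [Finset.mem_filter]
      refine ⟨Finset.mem_univ _, ?_⟩
      rw [Finset.sum_range] at hn
      exact hn
  refine ENNReal.le_of_forall_pos_le_add fun ε hε _ => ?_
  have hε' : (0 : ℝ) < ε := hε
  have h1 := key (ε * Real.log 2 / 2) (by positivity)
  have h2 : (Real.binEntropy ((1 + m / B) / 2) + 2 * (ε * Real.log 2 / 2)) / Real.log 2 =
      Real.binEntropy ((1 + m / B) / 2) / Real.log 2 + ε := by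
    field_simp
  rw [h2, ENNReal.ofReal_add (by positivity) ε.coe_nonneg] at h1
  refine h1.trans (le_of_eq ?_)
  congr 1
  exact ENNReal.ofReal_coe_nnreal

section

attribute [local instance] PiNat.metricSpace

theorem t2 (hCOV : S_COV) (hCHER : S_CHER) (hABEL : S_ABEL) (hPZ : S_PZ) (hSUP : S_SUP) : S_T2 := by
  intro a B m ha hm hmB
  have h : ∀ i, dimS {ω | RZ (a i) ω m} ≤
      ENNReal.ofReal (Real.binEntropy ((1 + m / B) / 2) / Real.log 2) := fun i =>
    dim_one hCOV hCHER hABEL hPZ hSUP (a i) B m (ha i) hm hmB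
  unfold dimS at h ⊢
  rw [dimH_iUnion]
  exact iSup_le h

end

end Pool.Agent.Q151.IC
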